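import Pool.Agent.H553Z.BH.Core

/-!
# The pigeonhole argument on the scales, and the choice of the parameters
-/

namespace Pool.Agent.H553Z.Hier

open Pool.Agent.NPC Filter Asymptotics

theorem exists_upper (S : Finset ℕ) : ∀ m, m ≤ S.card → ∃ H ⊆ S, H.card = m ∧
    ∀ a ∈ S \ H, ∀ b ∈ H, a < b := by
  intro m
  induction m with
  | zero => intro _; exact ⟨∅, by simp, rfl, by simp⟩
  | succ m ih =>
    intro hm
    obtain ⟨H, h1, h2, h3⟩ := ih (by omega)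
    have hne : (S \ H).Nonempty := by
      rw [← Finset.card_pos, Finset.card_sdiff_of_subset h1]
      omega
    have h4 := (S \ H).max'_mem hne
    refine ⟨insert ((S \ H).max' hne) H, ?_, ?_, ?_⟩
    · exact Finset.insert_subset (Finset.mem_sdiff.1 h4).1 h1
    · rw [Finset.card_insert_of_notMem (Finset.mem_sdiff.1 h4).2, h2]
    · intro a ha b hb
      rw [Finset.mem_sdiff, Finset.mem_insert, not_or] at ha
      have h5 : a ∈ S \ H := Finset.mem_sdiff.2 ⟨ha.1, ha.2.2⟩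
      rcases Finset.mem_insert.1 hb with rfl | hb
      · exact lt_of_le_of_ne ((S \ H).le_max' a h5) ha.2.1
      · exact h3 a h5 b hb

theorem exists_pairs (S : Finset ℕ) (m : ℕ) (h : 2 * m ≤ S.card) :
    ∃ (H : Finset ℕ) (π : ℕ → ℕ), H ⊆ S ∧ H.card = m ∧ Set.InjOn π H ∧ (∀ e ∈ H, π e ∈ S) ∧
      ∀ e ∈ H, ∀ e' ∈ H, π e < e' := by
  classical
  obtain ⟨H, h1, h2, h3⟩ := exists_upper S m (by omega)
  have h4 : Fintype.card H ≤ (S \ H).card := by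
    rw [Fintype.card_coe, Finset.card_sdiff_of_subset h1]
    omega
  obtain ⟨φ, hφ⟩ := Function.Embedding.exists_of_card_le_finset h4
  have h5 : ∀ e (he : e ∈ H), φ ⟨e, he⟩ ∈ S \ H := fun e he => hφ ⟨_, rfl⟩
  refine ⟨H, fun e => if he : e ∈ H then φ ⟨e, he⟩ else 0, h1, h2, ?_, ?_, ?_⟩
  · intro e he e' he' hee
    have he1 : e ∈ H := he
    have he2 : e' ∈ H := he'
    simp only [he1, he2, dif_pos] at hee
    exact congrArg Subtype.val (φ.injective hee)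
  · intro e he
    simp only [he, dif_pos]
    exact (Finset.mem_sdiff.1 (h5 e he)).1
  · intro e he e' he'
    simp only [he, dif_pos]
    exact h3 _ (h5 e he) _ he'

/-- The constant in the size of the final context. -/
def Cfin (C₀ : ℕ) : ℕ → ℕ → ℕ
  | 0, C => C
  | i + 1, C => Cfin C₀ i (9 * C + 8 * C₀ + 60)

theorem sz_ext (c c₁ c₂ : List (List Bool)) (m₁ m₂ : ℕ) (a₁ a₂ : List Bool)
    (o : Option (List Bool)) :
    sz (c ++ [bits ((((m₁, c₁, a₁), (m₂, c₂, a₂)), o) : Node)]) ≤ sz c + 4 * (sz m₁ + sz a₁) +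
      4 * (sz m₂ + sz a₂) + 4 * sz c₁ + 4 * sz c₂ + 4 * sz o + 26 := by
  have h1 := sz_append c [bits ((((m₁, c₁, a₁), (m₂, c₂, a₂)), o) : Node)]
  have h2 := sz_listBool_le (bits ((((m₁, c₁, a₁), (m₂, c₂, a₂)), o) : Node))
  rw [bits_length] at h2
  simp only [sz_pair, sz_list_cons, sz_list_nil] at h1 h2
  omega

namespace Data2

variable {k l j E Dd K : ℕ} {s : ℕ → ℕ}
  (D : Data2 k l j s {x | Lr l (Hs j) E Dd K (2 ^ j) x})

theorem scales {P n C₀ : ℕ} {ℓ g : ℕ → ℕ} (hn : 1 ≤ n)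
    (hpair : ∀ e e', 1 ≤ e → e < e' → e' ≤ P → D.Pair (ℓ e) (ℓ e'))
    (hα : ∀ e, 1 ≤ e → e ≤ P → sz (ℓ e) + sz (D.a (ℓ e)) ≤ C₀ * n)
    (hg1 : ∀ e, 1 ≤ e → n ≤ g e) (hg2 : ∀ e e', 1 ≤ e → e < e' → ℓ e ^ E ≤ g e')
    (hg3 : ∀ e, 1 ≤ e → n * g e ≤ ℓ e) :
    ∀ (i C : ℕ) (S : Finset ℕ) (c : ℕ → List (List Bool)),
      2 * sz D.hdr + 2 * Cfin C₀ i C + 3 ≤ n → 4 ^ i ≤ S.card → (∀ e ∈ S, 1 ≤ e ∧ e ≤ P) →
      (∀ e ∈ S, D.Good i (ℓ e) (c e)) → (∀ e ∈ S, ∀ e' ∈ S, sz (c e) ≤ C * g e') → False := by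
  classical
  intro i
  induction i with
  | zero =>
    intro C S c hC hS h1 h2 h3
    obtain ⟨e, he⟩ : S.Nonempty := by rw [← Finset.card_pos]; simpa using hS
    refine D.good_zero (h2 e he) ?_
    have h4 := h3 e he e he
    have h5 := hg3 e (h1 e he).1
    have h6 := hg1 e (h1 e he).1
    have h7 := Nat.mul_le_mul_right (g e) hC
    simp only [Cfin] at h7
    rw [sz_pair]
    nlinarith
  | succ i ih =>
    intro C S c hC hS h1 h2 h3
    obtain ⟨H, π, hH1, hH2, hH3, hH4, hH5⟩ := exists_pairs S (2 * 4 ^ i) (by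
      rw [pow_succ] at hS; omega)
    let ν : ℕ → Option (List Bool) → Node := fun e o =>
      (((ℓ (π e), c (π e), D.a (ℓ (π e))), (ℓ e, c e, D.a (ℓ e))), o)
    have hstep : ∀ e ∈ H, D.Good i (ℓ (π e)) (c (π e) ++ [bits (ν e none)]) ∨
        ∃ y : List Bool, y.length ≤ ℓ (π e) ^ E ∧ D.Good i (ℓ e) (c e ++ [bits (ν e (some y))]) :=
      fun e he => D.step (hpair _ _ (h1 _ (hH4 e he)).1 (hH5 e he e he) (h1 e (hH1 he)).2)
        (h2 _ (hH4 e he)) (h2 _ (hH1 he))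
    have hsz : ∀ e ∈ H, ∀ e₀ ∈ S, ∀ e' ∈ S, ∀ o : Option (List Bool), sz o ≤ 4 * g e' + 3 →
        sz (c e₀ ++ [bits (ν e o)]) ≤ (9 * C + 8 * C₀ + 60) * g e' := by
      intro e he e₀ he₀ e' he' o ho
      have a1 := sz_ext (c e₀) (c (π e)) (c e) (ℓ (π e)) (ℓ e) (D.a (ℓ (π e))) (D.a (ℓ e)) o
      have a2 := hα _ (h1 _ (hH4 e he)).1 (h1 _ (hH4 e he)).2
      have a3 := hα _ (h1 _ (hH1 he)).1 (h1 _ (hH1 he)).2
      have a4 := h3 _ he₀ _ he'
      have a5 := h3 _ (hH4 e he) _ he'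
      have a6 := h3 _ (hH1 he) _ he'
      have a7 := hg1 e' (h1 _ he').1
      have a8 : C₀ * n ≤ C₀ * g e' := Nat.mul_le_mul_left _ a7
      have a9 : (9 * C + 8 * C₀ + 60) * g e' = 9 * (C * g e') + 8 * (C₀ * g e') + 60 * g e' := by
        ring
      change sz (c e₀ ++ [bits ((((ℓ (π e), c (π e), D.a (ℓ (π e))), (ℓ e, c e, D.a (ℓ e))), o) :
        Node)]) ≤ _
      omega
    have hcard := H.card_filter_add_card_filter_not
      (fun e => D.Good i (ℓ (π e)) (c (π e) ++ [bits (ν e none)]))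
    by_cases hc : 4 ^ i ≤ (H.filter
        (fun e => D.Good i (ℓ (π e)) (c (π e) ++ [bits (ν e none)]))).card
    · have hch : ∀ e₁, ∃ c' : List (List Bool), e₁ ∈ (H.filter
          (fun e => D.Good i (ℓ (π e)) (c (π e) ++ [bits (ν e none)]))).image π →
          D.Good i (ℓ e₁) c' ∧ ∀ e' ∈ S, sz c' ≤ (9 * C + 8 * C₀ + 60) * g e' := by
        intro e₁
        by_cases he₁ : e₁ ∈ (H.filter
          (fun e => D.Good i (ℓ (π e)) (c (π e) ++ [bits (ν e none)]))).image π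
        · obtain ⟨e, he, rfl⟩ := Finset.mem_image.1 he₁
          obtain ⟨he1, he2⟩ := Finset.mem_filter.1 he
          exact ⟨_, fun _ => ⟨he2, fun e' he' => hsz e he1 _ (hH4 e he1) e' he' none (by simp)⟩⟩
        · exact ⟨[], fun h => absurd h he₁⟩
      choose c' hc' using hch
      have hsub : ∀ e₁ ∈ (H.filter
          (fun e => D.Good i (ℓ (π e)) (c (π e) ++ [bits (ν e none)]))).image π, e₁ ∈ S := by
        intro e₁ he₁
        obtain ⟨e, he, rfl⟩ := Finset.mem_image.1 he₁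
        exact hH4 e (Finset.mem_filter.1 he).1
      refine ih _ _ c' hC ?_ (fun e he => h1 e (hsub e he)) (fun e he => (hc' e he).1)
        (fun e he e' he' => (hc' e he).2 e' (hsub e' he'))
      rw [Finset.card_image_of_injOn (hH3.mono (by
        intro e he
        exact (Finset.mem_filter.1 he).1))]
      exact hc
    · have hch : ∀ e, ∃ c' : List (List Bool), e ∈ H.filter
          (fun e => ¬ D.Good i (ℓ (π e)) (c (π e) ++ [bits (ν e none)])) →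
          D.Good i (ℓ e) c' ∧ ∀ e' ∈ H, sz c' ≤ (9 * C + 8 * C₀ + 60) * g e' := by
        intro e
        by_cases he : e ∈ H.filter
          (fun e => ¬ D.Good i (ℓ (π e)) (c (π e) ++ [bits (ν e none)]))
        · obtain ⟨he1, he2⟩ := Finset.mem_filter.1 he
          obtain ⟨y, hy1, hy2⟩ := (hstep e he1).resolve_left he2
          refine ⟨_, fun _ => ⟨hy2, fun e' he' => hsz e he1 _ (hH1 he1) e' (hH1 he') _ ?_⟩⟩
          have b1 := hg2 _ _ (h1 _ (hH4 e he1)).1 (hH5 e he1 e' he')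
          have b2 := sz_listBool_le y
          rw [sz_some]
          omega
        · exact ⟨[], fun h => absurd h he⟩
      choose c' hc' using hch
      refine ih _ (H.filter (fun e => ¬ D.Good i (ℓ (π e)) (c (π e) ++ [bits (ν e none)]))) c' hC
        (by omega) (fun e he => h1 e (hH1 (Finset.mem_filter.1 he).1)) (fun e he => (hc' e he).1)
        (fun e he e' he' => (hc' e he).2 e' (Finset.mem_filter.1 he').1)

end Data2

namespace Data2

variable {k l j : ℕ} {s : ℕ → ℕ} {L : Set (List Bool)} (D : Data2 k l j s L)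

theorem ok_of (hk : 1 ≤ k) (hl : 1 ≤ l) : ∃ m₁, ∀ m, m₁ ≤ m → s m ≤ m → ∀ t,
    m ^ (k * l * k + 1) ≤ t → D.Ok t m := by
  have hkl : k ≤ k * l := Nat.le_mul_of_pos_right _ hl
  have hklk : k * l ≤ k * l * k := Nat.le_mul_of_pos_right _ hk
  have hY : OP s k D.Y := by
    unfold Y
    refine OP.cmul _ (OP.pow (j := 1) ?_ k (by omega))
    exact ((((((OP.id' le_rfl).cmul 2).add (OP.const 1)).add (OP.qq le_rfl)).cmul 2).add
      (OP.const 1)).add (OP.const j) |>.add (OP.const 1)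
  have hW : OP s (k * l) D.Wb := by
    unfold Wb
    exact (OP.cmul _ (hY.pow l le_rfl)).add (OP.const _)
  have hZ : OP s (k * l) D.Wz := by
    unfold Wz
    exact ((OP.const _).add ((((hW.cmul 4).add (OP.const 2)).cmul j).add (OP.const 1))).add
      (OP.const 1)
  have hS : OP s (k * l) D.WS := by
    unfold WS
    exact ((((OP.id' (hk.trans hkl)).add hZ).add (OP.const 1)).cmul 2).add (OP.const 1)
  have h2 : OP s (k * l * k) (fun m => D.CV * (2 * D.Y m + 1 + D.Wb m + 1) ^ k) := by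
    refine OP.cmul _ (OP.pow (j := k * l) ?_ k le_rfl)
    exact ((((hY.mono hkl).cmul 2).add (OP.const 1)).add hW).add (OP.const 1)
  obtain ⟨m₃, hm₃⟩ := (hY.mono (hkl.trans hklk)).lt
  obtain ⟨m₄, hm₄⟩ := h2.lt
  obtain ⟨m₅, hm₅⟩ := (hS.mono hklk).lt
  refine ⟨m₃ + m₄ + m₅, fun m hm hq t ht => ⟨?_, ?_, ?_⟩⟩
  · exact ((hm₃ m (by omega) hq).trans_le ht).le
  · exact ((hm₄ m (by omega) hq).trans_le ht).le
  · exact ((hm₅ m (by omega) hq).trans_le ht).le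

end Data2

set_option maxHeartbeats 400000 in
theorem bh_nat {k l j E P Dd : ℕ} (hk : 1 ≤ k) (hl : 1 ≤ l) (hE : E = k * l * k + 1)
    (hP : P = 4 ^ 2 ^ j) (hDd : Dd = (E + 1) ^ P) {s : ℕ → ℕ}
    (hs : ∃ C m₀ : ℕ, ∀ m, m₀ ≤ m → s m ^ Dd ≤ C * m) :
    ¬ ConstQueries k l j s {x | Lr l (Hs j) E Dd (Dd * E) (2 ^ j) x} := by
  intro hF
  obtain ⟨D⟩ := hF.data hk
  obtain ⟨m₁, hm₁⟩ := D.ok_of hk hl
  rw [← hE] at hm₁
  obtain ⟨C, m₀, hC⟩ := hs
  have hE1 : 1 ≤ E := by omega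
  have hD1 : 1 ≤ Dd := by rw [hDd]; exact Nat.pow_pos (by omega)
  obtain ⟨C₀, hC₀⟩ : ∃ C₀, C₀ = 4 * Dd + 4 * (C + 1) + 6 := ⟨_, rfl⟩
  obtain ⟨b, hb⟩ : ∃ b, b = m₀ + m₁ + (C + 1) + (2 * sz D.hdr + 2 * Cfin C₀ (2 ^ j) 1 + 3) :=
    ⟨_, rfl⟩
  obtain ⟨n, hn⟩ : ∃ n, n = 2 ^ b := ⟨_, rfl⟩
  have hbn : b < n := by rw [hn]; exact Nat.lt_two_pow_self
  have hn1 : 1 ≤ n := by omega
  obtain ⟨ℓ, hℓ⟩ : ∃ ℓ : ℕ → ℕ, ∀ e, ℓ e = n ^ (E + 1) ^ e := ⟨fun e => _, fun _ => rfl⟩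
  obtain ⟨g, hg⟩ : ∃ g : ℕ → ℕ, ∀ e, g e = n ^ ((E + 1) ^ (e - 1) * E) :=
    ⟨fun e => _, fun _ => rfl⟩
  have hpos : ∀ e, 1 ≤ (E + 1) ^ e := fun e => Nat.pow_pos (by omega)
  have hnl : ∀ e, n ≤ ℓ e := fun e => by
    rw [hℓ]; exact Nat.le_self_pow (by have := hpos e; omega) _
  have hlD : ∀ e, e ≤ P → ℓ e ≤ n ^ Dd := fun e he => by
    rw [hℓ, hDd]
    exact Nat.pow_le_pow_right hn1 (Nat.pow_le_pow_right (by omega) he)
  have hlD' : ∀ e e', e' ≤ P → ℓ e' ≤ ℓ e ^ Dd := fun e e' he =>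
    (hlD e' he).trans (Nat.pow_le_pow_left (hnl e) _)
  have hsn : ∀ e, e ≤ P → s (ℓ e) ≤ (C + 1) * n := by
    intro e he
    have h1 := hC (ℓ e) (by have := hnl e; omega)
    have h2 : C * ℓ e ≤ ((C + 1) * n) ^ Dd := by
      rw [mul_pow]
      exact Nat.mul_le_mul (le_trans (by omega) (Nat.le_self_pow (by omega) (C + 1))) (hlD e he)
    exact (Nat.pow_le_pow_iff_left (by omega)).1 (h1.trans h2)
  have hsl : ∀ e, 1 ≤ e → e ≤ P → s (ℓ e) ≤ ℓ e := by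
    intro e he he'
    refine (hsn e he').trans ?_
    have h1 : 2 ≤ (E + 1) ^ e := le_trans (by omega) (Nat.le_self_pow (by omega) (E + 1))
    calc (C + 1) * n ≤ n * n := Nat.mul_le_mul_right _ (by omega)
      _ = n ^ 2 := by ring
      _ ≤ ℓ e := by rw [hℓ]; exact Nat.pow_le_pow_right hn1 h1
  have hok : ∀ e e', 1 ≤ e' → e' ≤ P → D.Ok (ℓ e ^ (Dd * E)) (ℓ e') := by
    intro e e' he he'
    refine hm₁ _ (by have := hnl e'; omega) (hsl e' he he') _ ?_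
    rw [pow_mul]
    exact Nat.pow_le_pow_left (hlD' e e' he') _
  refine D.scales (P := P) (n := n) (C₀ := C₀) (ℓ := ℓ) (g := g) hn1 ?_ ?_ ?_ ?_ ?_ (2 ^ j) 1
    (Finset.Icc 1 P) (fun _ => []) (by omega) (by simp [hP]) (fun e he => Finset.mem_Icc.1 he)
    (fun e _ => D.good_top _) ?_
  · intro e e' h1 h2 h3
    exact ⟨hok e e h1 (by omega), hok e e' (by omega) h3, hok e' e h1 (by omega),
      hok e' e' (by omega) h3, hlD' _ _ h3, hlD' _ _ (by omega), hlD' _ _ h3,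
      (hm₁ _ (by have := hnl e; omega) (hsl e h1 (by omega)) _ le_rfl).tw⟩
  · intro e h1 h2
    have h3 := sz_nat_le (ℓ e)
    have h4 : (ℓ e).size ≤ Dd * n + 1 := by
      refine (Nat.size_le_size (hlD e h2)).trans ?_
      rw [hn, ← pow_mul, Nat.size_pow, ← hn, mul_comm]
      have := Nat.mul_le_mul_left Dd hbn.le
      omega
    have h5 := sz_listBool_le (D.a (ℓ e))
    have h6 := D.ha (ℓ e)
    have h7 := hsn e h2
    have h8 : C₀ * n = 4 * (Dd * n) + 4 * ((C + 1) * n) + 6 * n := by rw [hC₀]; ring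
    omega
  · intro e _
    rw [hg]
    exact Nat.le_self_pow (Nat.mul_pos (hpos _) hE1).ne' _
  · intro e e' _ h2
    rw [hℓ, hg, ← pow_mul]
    exact Nat.pow_le_pow_right hn1
      (Nat.mul_le_mul_right _ (Nat.pow_le_pow_right (by omega) (by omega)))
  · intro e h1
    rw [hℓ, hg, ← pow_succ']
    refine Nat.pow_le_pow_right hn1 ?_
    obtain ⟨e', rfl⟩ : ∃ e', e = e' + 1 := ⟨e - 1, by omega⟩
    rw [Nat.add_sub_cancel, pow_succ, mul_add, mul_one]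
    have := hpos e'
    omega
  · intro e _ e' he'
    have h1 : n ≤ g e' := by
      rw [hg]
      exact Nat.le_self_pow (Nat.mul_pos (hpos _) hE1).ne' _
    simp only [sz_list_nil]
    omega

theorem bh_main {k l : ℕ} (j : ℕ) (hk : 1 ≤ k) (hl : 1 ≤ l) :
    ∃ (L : Set (List Bool)) (d : ℕ), InNP L ∧ 1 ≤ d ∧ ∀ s : ℕ → ℕ,
      (∃ C m₀ : ℕ, ∀ m, m₀ ≤ m → s m ^ d ≤ C * m) → ¬ ConstQueries k l j s L :=
  ⟨_, _, (npf_Lr _ _ _ _ _ _).inNP, Nat.pow_pos (by omega),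
    fun _ hs => bh_nat hk hl rfl rfl rfl hs⟩

theorem bh_real {k l : ℕ} (j : ℕ) (hk : 1 ≤ k) (hl : 1 ≤ l) :
    ∃ (L : Set (List Bool)) (δ : ℝ), InNP L ∧ 0 < δ ∧ ∀ s : ℕ → ℕ,
      (fun n : ℕ => (s n : ℝ)) =O[atTop] (fun n : ℕ => (n : ℝ) ^ δ) →
        ¬ ConstQueries k l j s L := by
  obtain ⟨L, d, hL, hd, h⟩ := bh_main j hk hl
  have hd' : (0 : ℝ) < d := by exact_mod_cast hd
  refine ⟨L, 1 / d, hL, by positivity, fun s hs => h s ?_⟩
  obtain ⟨C, hC, hs⟩ := hs.exists_pos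
  obtain ⟨m₀, hm₀⟩ := eventually_atTop.1 hs.bound
  refine ⟨⌈C ^ d⌉₊, m₀, fun m hm => ?_⟩
  have h1 := hm₀ m hm
  rw [Real.norm_of_nonneg (by positivity), Real.norm_of_nonneg (by positivity)] at h1
  have h2 : ((s m : ℝ)) ^ d ≤ (C * (m : ℝ) ^ (1 / (d : ℝ))) ^ d :=
    pow_le_pow_left₀ (by positivity) h1 d
  rw [mul_pow, one_div, Real.rpow_inv_natCast_pow (by positivity) (by omega)] at h2
  have h3 : C ^ d * (m : ℝ) ≤ (⌈C ^ d⌉₊ : ℝ) * m :=
    mul_le_mul_of_nonneg_right (Nat.le_ceil _) (by positivity)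
  exact_mod_cast h2.trans h3

end Pool.Agent.H553Z.Hier
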