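import Pool.Agent.H553Z.BH.Lang

/-!
# The elimination of one level
-/

namespace Pool.Agent.H553Z.Hier

open Pool.Agent.NPC Turing Pool.Agent.H660R2.NX

attribute [local irreducible] unpair

/-! ### Potentials -/

/-- The rank of a list of answers in the lexicographic order. -/
def pot : ℕ → List Bool → ℕ
  | 0, _ => 0
  | _ + 1, [] => 0
  | j + 1, b :: h => (if b then 2 ^ j else 0) + pot j h

theorem pot_lt : ∀ (j : ℕ) (h : List Bool), pot j h < 2 ^ j
  | 0, _ => by simp [pot]
  | j + 1, [] => by simp [pot]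
  | j + 1, b :: h => by
    have := pot_lt j h
    rw [pot, pow_succ]
    split_ifs <;> omega

/-- The answers `true` are correct. -/
def YesC (act : List Bool → List Bool) (A : Set (List Bool)) (h : List Bool) : Prop :=
  ∀ (i : ℕ) (hi : i < h.length), ∃ y : List Bool, act (h.take i) = false :: y ∧
    (h[i] = true → y ∈ A)

theorem Correct.yesC {act : List Bool → List Bool} {A : Set (List Bool)} {h : List Bool}
    (hc : Correct act A h) : YesC act A h := fun i hi => by
  obtain ⟨y, h1, h2⟩ := hc i hi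
  exact ⟨y, h1, h2.1⟩

theorem pot_max {A : Set (List Bool)} : ∀ (j : ℕ) (act : List Bool → List Bool)
    (h h' : List Bool), h.length ≤ j → h'.length ≤ j → YesC act A h → Correct act A h' →
    (∀ y, act h ≠ false :: y) → (∀ y, act h' ≠ false :: y) → h = h' ∨ pot j h < pot j h'
  | j, act, [], [], _, _, _, _, _, _ => Or.inl rfl
  | j, act, [], b :: h', _, _, _, hc, hn, _ => by
    obtain ⟨y, hy, -⟩ := hc 0 (by simp)
    exact absurd hy (hn y)
  | j, act, b :: h, [], _, _, hy, _, _, hn => by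
    obtain ⟨y, hy, -⟩ := hy 0 (by simp)
    exact absurd hy (hn y)
  | 0, act, b :: h, b' :: h', hl, _, _, _, _, _ => by simp at hl
  | j + 1, act, b :: h, b' :: h', hl, hl', hy, hc, hn, hn' => by
    obtain ⟨y, hy1, hy2⟩ := hy 0 (by simp)
    obtain ⟨y', hy1', hy2'⟩ := hc 0 (by simp)
    simp only [List.take_zero, List.getElem_cons_zero] at hy1 hy2 hy1' hy2'
    rw [hy1] at hy1'
    simp only [List.cons.injEq, true_and] at hy1'
    subst hy1'
    by_cases hb : b = b'
    · subst hb
      have := pot_max j (fun l => act (b :: l)) h h' (by simpa using hl) (by simpa using hl')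
        (fun i hi => by
          obtain ⟨z, hz1, hz2⟩ := hy (i + 1) (by simpa using hi)
          exact ⟨z, by simpa using hz1, by simpa using hz2⟩)
        (fun i hi => by
          obtain ⟨z, hz1, hz2⟩ := hc (i + 1) (by simpa using hi)
          exact ⟨z, by simpa using hz1, by simpa using hz2⟩) hn hn'
      rcases this with rfl | h1
      · exact Or.inl rfl
      · right
        simp only [pot]
        omega
    · right
      cases b
      · cases b'
        · exact absurd rfl hb
        · have := pot_lt j h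
          simp only [pot, Bool.false_eq_true, if_false, if_true]
          omega
      · have h1 := hy2'.2 (hy2 rfl)
        exact absurd h1.symm hb

/-- The lists of answers of a given rank. -/
def Hs (j i : ℕ) : List (List Bool) := (allStr j).filter (fun h => decide (pot j h = i))

theorem mem_Hs {j i : ℕ} {h : List Bool} : h ∈ Hs j i ↔ h.length ≤ j ∧ pot j h = i := by
  simp [Hs, mem_allStr]

/-- All the data of an algorithm. -/
structure Data2 (k l j : ℕ) (s : ℕ → ℕ) (L : Set (List Bool)) where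
  f : List Bool → List Bool
  V : List Bool → List Bool
  A : Set (List Bool)
  a : ℕ → List Bool
  cV : ℕ
  ef : Code
  eV : Code
  Cf : ℕ
  CV : ℕ
  hf : Cd k ef f Cf
  hV : Cd k eV V CV
  hfl : ∀ x, (f x).length ≤ Cf * (x.length + 1) ^ k
  hA : ∀ y, y ∈ A ↔ ∃ w : List Bool, w.length ≤ cV * y.length ^ l + cV ∧ V (pairBits y w) = [true]
  ha : ∀ n, (a n).length ≤ s n
  hd : ∀ x : List Bool, Decides (alg f x (a x.length)) A j (x ∈ L)

theorem ConstQueries.data {k l j : ℕ} (hk : 1 ≤ k) {s : ℕ → ℕ} {L : Set (List Bool)}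
    (h : ConstQueries k l j s L) : Nonempty (Data2 k l j s L) := by
  obtain ⟨f, A, a, hf, ⟨V, cV, hV, hA⟩, ha, hd⟩ := h
  obtain ⟨ef, Cf, hf1, hf2⟩ := hf.code hk
  obtain ⟨eV, CV, hV1, -⟩ := hV.code hk
  exact ⟨⟨f, V, A, a, cV, ef, eV, Cf, CV, hf1, hV1, hf2, hA, ha, hd⟩⟩

namespace Data2

variable {k l j : ℕ} {s : ℕ → ℕ} {L : Set (List Bool)} (D : Data2 k l j s L)

/-- The header. -/
def hdr : Hdr := (D.ef, D.ef, D.eV, D.cV, 0, [])

/-- The actions on the input `x`. -/
def act (x : List Bool) : List Bool → List Bool := alg D.f x (D.a x.length)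

/-- Acceptance on level `i`. -/
def Acc (i : ℕ) (x : List Bool) : Prop :=
  ∃ h : List Bool, h ∈ Hs j i ∧ YesC (D.act x) D.A h ∧ D.act x h = [true]

/-- Rejection on level `i`. -/
def Rej (i : ℕ) (x : List Bool) : Prop :=
  ∃ h : List Bool, h ∈ Hs j i ∧ YesC (D.act x) D.A h ∧ (∀ y, D.act x h ≠ false :: y) ∧
    D.act x h ≠ [true]

theorem exists_level (x : List Bool) : ∃ i, D.Acc i x ∨ D.Rej i x := by
  obtain ⟨h, h1, h2, h3, -⟩ := D.hd x
  refine ⟨pot j h, ?_⟩
  by_cases h4 : D.act x h = [true]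
  · exact Or.inl ⟨h, mem_Hs.2 ⟨h1, rfl⟩, h2.yesC, h4⟩
  · exact Or.inr ⟨h, mem_Hs.2 ⟨h1, rfl⟩, h2.yesC, h3, h4⟩

theorem not_level {i : ℕ} (hi : 2 ^ j ≤ i) (x : List Bool) : ¬ D.Acc i x ∧ ¬ D.Rej i x := by
  constructor
  · rintro ⟨h, h1, -⟩
    have := pot_lt j h
    have := (mem_Hs.1 h1).2
    omega
  · rintro ⟨h, h1, -⟩
    have := pot_lt j h
    have := (mem_Hs.1 h1).2
    omega

theorem top_level {i : ℕ} {x : List Bool} (hx : ∀ i', i + 1 ≤ i' → ¬ D.Acc i' x ∧ ¬ D.Rej i' x) :
    (D.Acc i x → x ∈ L) ∧ (D.Rej i x → x ∉ L) := by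
  obtain ⟨h', h1, h2, h3, h4⟩ := D.hd x
  have key : ∀ h, h ∈ Hs j i → YesC (D.act x) D.A h → (∀ y, D.act x h ≠ false :: y) → h = h' := by
    intro h hh hy hn
    obtain ⟨h5, h6⟩ := mem_Hs.1 hh
    rcases pot_max j (D.act x) h h' h5 h1 hy h2 hn h3 with h7 | h7
    · exact h7
    · exfalso
      have h8 := hx (pot j h') (by omega)
      by_cases h9 : D.act x h' = [true]
      · exact h8.1 ⟨h', mem_Hs.2 ⟨h1, rfl⟩, h2.yesC, h9⟩
      · exact h8.2 ⟨h', mem_Hs.2 ⟨h1, rfl⟩, h2.yesC, h3, h9⟩
  constructor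
  · rintro ⟨h, hh, hy, ht⟩
    have := key h hh hy (by intro y; rw [ht]; simp)
    subst this
    exact h4.1 ht
  · rintro ⟨h, hh, hy, hn, ht⟩ hL
    have := key h hh hy hn
    subst this
    exact ht (h4.2 hL)

/-- Bound on the length of the queries. -/
def Y (m : ℕ) : ℕ := D.Cf * (2 * (2 * m + 1 + s m) + 1 + j + 1) ^ k

/-- Bound on the length of the certificates. -/
def Wb (m : ℕ) : ℕ := D.cV * D.Y m ^ l + D.cV

/-- Bound on the size of a list of answers with certificates. -/
def Wz (m : ℕ) : ℕ := 4 * j + 1 + (j * (4 * D.Wb m + 2) + 1) + 1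

/-- Bound on the length of a certificate for a signal. -/
def WS (m : ℕ) : ℕ := 2 * (m + D.Wz m + 1) + 1

/-- The time `t` is enough for the inputs of length `m`. -/
structure Ok (t m : ℕ) : Prop where
  tf : D.Y m ≤ t
  tV : D.CV * (2 * D.Y m + 1 + D.Wb m + 1) ^ k ≤ t
  tw : D.WS m ≤ t

theorem ver_sound {t : List Unit} {y w : List Bool} (h : ver l D.hdr t y w = true) : y ∈ D.A := by
  unfold ver at h
  simp only [Bool.and_eq_true, decide_eq_true_eq, hdr] at h
  exact (D.hA y).2 ⟨w, h.1, (D.hV.eq h.2).symm⟩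

theorem ver_complete {t m : ℕ} (ht : D.Ok t m) {y : List Bool} (hy : y ∈ D.A)
    (hl : y.length ≤ D.Y m) :
    ∃ w : List Bool, w.length ≤ D.Wb m ∧ ver l D.hdr (un t) y w = true := by
  obtain ⟨w, hw1, hw2⟩ := (D.hA y).1 hy
  have hw3 : w.length ≤ D.Wb m := by
    refine hw1.trans ?_
    unfold Wb
    have := Nat.mul_le_mul_left D.cV (Nat.pow_le_pow_left hl l)
    omega
  refine ⟨w, hw3, ?_⟩
  unfold ver
  simp only [Bool.and_eq_true, decide_eq_true_eq, hdr, length_un]
  refine ⟨hw1, ?_⟩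
  rw [← hw2]
  refine D.hV _ _ (le_trans ?_ ht.tV)
  rw [length_pairBits]
  exact Nat.mul_le_mul_left _ (Nat.pow_le_pow_left (by omega) _)

theorem actS_eq {t : ℕ} {x h : List Bool} (ht : D.Ok t x.length) (hh : h.length ≤ j) :
    actS D.hdr (un t) (pairBits x (D.a x.length)) h = D.act x h := by
  refine D.hf.simu (m := 2 * (2 * x.length + 1 + s x.length) + 1 + j) ?_ ht.tf
  rw [length_pairBits, length_pairBits]
  have := D.ha x.length
  omega

theorem len_act {x h y : List Bool} (hh : h.length ≤ j) (hy : D.act x h = false :: y) :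
    y.length ≤ D.Y x.length := by
  have h1 := D.hfl (pairBits (pairBits x (D.a x.length)) h)
  have h2 : D.f (pairBits (pairBits x (D.a x.length)) h) = false :: y := hy
  rw [h2, length_pairBits, length_pairBits, List.length_cons] at h1
  have h3 := D.ha x.length
  have h4 : D.Cf * (2 * (2 * x.length + 1 + (D.a x.length).length) + 1 + h.length + 1) ^ k ≤
      D.Y x.length := Nat.mul_le_mul_left _ (Nat.pow_le_pow_left (by omega) _)
  omega

theorem ycV_sound {t : ℕ} {x : List Bool} (ht : D.Ok t x.length) {ω : Wit} (hh : ω.1.length ≤ j)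
    (h : ycV l D.hdr (un t) (pairBits x (D.a x.length)) ω = true) : YesC (D.act x) D.A ω.1 := by
  unfold ycV at h
  simp only [List.all_eq_true, List.mem_range, Bool.and_eq_true, decide_eq_true_eq,
    Bool.or_eq_true, Bool.not_eq_true'] at h
  intro i hi
  obtain ⟨h1, h2⟩ := h i hi
  rw [D.actS_eq ht (by rw [List.length_take]; omega)] at h1 h2
  refine ⟨_, head?_tail' h1, fun h3 => ?_⟩
  rcases h2 with h2 | h2
  · rw [List.getD_eq_getElem _ _ hi, h3] at h2
    simp at h2
  · exact D.ver_sound h2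

theorem ycV_complete {t : ℕ} {x h : List Bool} (ht : D.Ok t x.length) (hh : h.length ≤ j)
    (hy : YesC (D.act x) D.A h) : ∃ W : List (List Bool), sz ((h, W) : Wit) ≤ D.Wz x.length ∧
      ycV l D.hdr (un t) (pairBits x (D.a x.length)) (h, W) = true := by
  have key : ∀ i, ∃ w : List Bool, w.length ≤ D.Wb x.length ∧ (i < h.length →
      h.getD i false = true → ver l D.hdr (un t) (D.act x (h.take i)).tail w = true) := by
    intro i
    by_cases hi : i < h.length
    · by_cases hb : h.getD i false = true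
      · obtain ⟨y, h1, h2⟩ := hy i hi
        rw [List.getD_eq_getElem _ _ hi] at hb
        obtain ⟨w, h3, h4⟩ := D.ver_complete ht (h2 hb)
          (D.len_act (by rw [List.length_take]; omega) h1)
        refine ⟨w, h3, fun _ _ => ?_⟩
        rw [h1]
        exact h4
      · exact ⟨[], Nat.zero_le _, fun _ h => absurd h hb⟩
    · exact ⟨[], Nat.zero_le _, fun h => absurd h hi⟩
  choose w hw1 hw2 using key
  refine ⟨(List.range h.length).map w, ?_, ?_⟩
  · have h1 := sz_listBool_le h
    have h2 := sz_le_length_mul ((List.range h.length).map w) (4 * D.Wb x.length + 1) (by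
      intro v hv
      obtain ⟨i, -, rfl⟩ := List.mem_map.1 hv
      have := sz_listBool_le (w i)
      have := hw1 i
      omega)
    rw [List.length_map, List.length_range] at h2
    have h3 : h.length * (4 * D.Wb x.length + 1 + 1) ≤ j * (4 * D.Wb x.length + 2) :=
      Nat.mul_le_mul_right _ hh
    unfold Wz
    rw [sz_pair]
    omega
  · unfold ycV
    simp only [List.all_eq_true, List.mem_range, Bool.and_eq_true, decide_eq_true_eq,
      Bool.or_eq_true, Bool.not_eq_true']
    intro i hi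
    rw [D.actS_eq ht (by rw [List.length_take]; omega)]
    obtain ⟨y, h1, -⟩ := hy i hi
    refine ⟨by rw [h1]; rfl, ?_⟩
    by_cases hb : h.getD i false = true
    · right
      rw [List.getD_eq_getElem _ _ (by simpa using hi)]
      simpa using hw2 i hi hb
    · left
      simpa using hb

theorem accV_sound {t i : ℕ} {x : List Bool} (ht : D.Ok t x.length) {ω : Wit}
    (h : accV l (Hs j i) D.hdr (un t) (pairBits x (D.a x.length)) ω = true) : D.Acc i x := by
  unfold accV at h
  simp only [Bool.and_eq_true, decide_eq_true_eq] at h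
  obtain ⟨h1, h2, h3⟩ := h
  have h4 := (mem_Hs.1 h1).1
  rw [D.actS_eq ht h4] at h3
  exact ⟨ω.1, h1, D.ycV_sound ht h4 h2, h3⟩

theorem accV_complete {t i : ℕ} {x : List Bool} (ht : D.Ok t x.length) (h : D.Acc i x) :
    ∃ ω : Wit, sz ω ≤ D.Wz x.length ∧
      accV l (Hs j i) D.hdr (un t) (pairBits x (D.a x.length)) ω = true := by
  obtain ⟨h, h1, h2, h3⟩ := h
  have h4 := (mem_Hs.1 h1).1
  obtain ⟨W, h5, h6⟩ := D.ycV_complete ht h4 h2
  refine ⟨(h, W), h5, ?_⟩
  unfold accV
  simp only [Bool.and_eq_true, decide_eq_true_eq]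
  exact ⟨h1, h6, by rw [D.actS_eq ht h4, h3]⟩

theorem rejS_iff {t i : ℕ} {x : List Bool} (ht : D.Ok t x.length) :
    (∃ y : List Bool, y.length ≤ t ∧ rejS l (Hs j i) D.hdr (un t) x (D.a x.length) y = true) ↔
      D.Rej i x := by
  constructor
  · rintro ⟨y, -, h⟩
    unfold rejS at h
    cases hω : unbits Wit (unpair y).1 with
    | none => rw [hω] at h; simp at h
    | some ω =>
      rw [hω] at h
      simp only [Option.elim_some, rejV, Bool.and_eq_true, decide_eq_true_eq,
        Bool.not_eq_true', decide_eq_false_iff_not] at h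
      obtain ⟨h1, h2, h3, h4⟩ := h
      have h5 := (mem_Hs.1 h1).1
      rw [D.actS_eq ht h5] at h3 h4
      refine ⟨ω.1, h1, D.ycV_sound ht h5 h2, fun y hy => h3 ?_, h4⟩
      rw [hy]; rfl
  · rintro ⟨h, h1, h2, h3, h4⟩
    have h5 := (mem_Hs.1 h1).1
    obtain ⟨W, h6, h7⟩ := D.ycV_complete ht h5 h2
    refine ⟨pairBits (bits ((h, W) : Wit)) [], ?_, ?_⟩
    · rw [length_pairBits, bits_length]
      have := ht.tw
      unfold WS at this
      simp only [List.length_nil]
      omega
    · unfold rejS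
      rw [unpair_pairBits, unbits_bits]
      simp only [Option.elim_some, rejV, Bool.and_eq_true, decide_eq_true_eq,
        Bool.not_eq_true', decide_eq_false_iff_not]
      rw [D.actS_eq ht h5]
      exact ⟨h1, h7, head?_ne_false h3, h4⟩

/-- The signal of a node. -/
def Sig (i m : ℕ) (c : List (List Bool)) (u : List Bool) : Prop :=
  ∃ V : List (List Bool), V.length = i ∧ 2 * sz (D.hdr, c ++ u :: V) + 1 ≤ m ∧
    D.Acc i (inst D.hdr (c ++ u :: V) (un m))

theorem ucap_un {m cap : ℕ} (h : m ≤ cap) : ucap m (un cap) = un m := by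
  unfold ucap
  rw [length_un, min_eq_left h]
  rfl

theorem sigV_sound {t cap i m : ℕ} {c : List (List Bool)} {u y : List Bool} (ht : D.Ok t m)
    (hc : m ≤ cap) (h : sigV l (Hs j i) i D.hdr (un t) (un cap) (m, c, D.a m) u y = true) :
    D.Sig i m c u := by
  unfold sigV at h
  cases hω : unbits (List (List Bool) × Wit) (unpair y).1 with
  | none => rw [hω] at h; simp at h
  | some ω =>
    rw [hω] at h
    simp only [Option.elim_some, Bool.and_eq_true, decide_eq_true_eq, bits_length,
      ucap_un hc] at h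
    obtain ⟨h1, h2, h3⟩ := h
    have hlen := length_mk h2
    refine ⟨ω.1, h1, h2, D.accV_sound (t := t) (ω := ω.2) (by rw [hlen]; exact ht) ?_⟩
    rw [hlen]
    exact h3

theorem sigV_complete {t cap i m B : ℕ} {c : List (List Bool)} {u : List Bool} (ht : D.Ok t m)
    (hc : m ≤ cap) (hB : D.WS m ≤ B) (h : D.Sig i m c u) : ∃ y : List Bool, y.length = B ∧
      sigV l (Hs j i) i D.hdr (un t) (un cap) (m, c, D.a m) u y = true := by
  obtain ⟨V, h1, h2, h3⟩ := h
  have hlen := length_mk h2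
  obtain ⟨ω, h4, h5⟩ := D.accV_complete (t := t) (by rw [hlen]; exact ht) h3
  rw [hlen] at h4 h5
  have h6 : sz V ≤ m := by
    have h7 := sz_append c (u :: V)
    have h8 := sz_pos c
    rw [sz_pair] at h2
    rw [sz_list_cons] at h7
    omega
  refine ⟨pairBits (bits (V, ω)) (List.replicate (B - (2 * sz (V, ω) + 1)) false), ?_, ?_⟩
  · rw [length_pairBits, bits_length, List.length_replicate]
    unfold WS at hB
    rw [sz_pair]
    omega
  · unfold sigV
    rw [unpair_pairBits, unbits_bits]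
    simp only [Option.elim_some, Bool.and_eq_true, decide_eq_true_eq, bits_length,
      ucap_un hc]
    exact ⟨h1, h2, h5⟩

theorem sig_iff {t cap i m : ℕ} {c : List (List Bool)} {u : List Bool} (ht : D.Ok t m)
    (hc : m ≤ cap) : (∃ y : List Bool, y.length ≤ t ∧
      sigV l (Hs j i) i D.hdr (un t) (un cap) (m, c, D.a m) u y = true) ↔ D.Sig i m c u := by
  constructor
  · rintro ⟨y, -, h⟩
    exact D.sigV_sound ht hc h
  · intro h
    obtain ⟨y, h1, h2⟩ := D.sigV_complete ht hc ht.tw h
    exact ⟨y, h1.le, h2⟩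

end Data2

theorem nodeOf_inst (κ : Hdr) (c V : List (List Bool)) (ν : Node) (n : List Unit) :
    nodeOf V.length (inst κ (c ++ bits ν :: V) n) = some (κ, ν) := by
  unfold nodeOf
  rw [parse_mk]
  have : (c ++ bits ν :: V).reverse.getD V.length [] = bits ν := by
    rw [List.reverse_append, List.reverse_cons, List.append_assoc, List.getD_eq_getElem?_getD,
      List.getElem?_append_right (by simp)]
    simp
  simp only [Option.bind_some, this, unbits_bits, Option.map_some]

namespace Data2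

variable {k l j E Dd K : ℕ} {s : ℕ → ℕ}
  (D : Data2 k l j s {x | Lr l (Hs j) E Dd K (2 ^ j) x})

/-- The condition of a node, tested from an instance of length `m`. -/
def TrP (i m : ℕ) (ν : Node) : Prop :=
  (∃ y : List Bool, y.length ≤ m ^ K ∧
    trV l (Hs j i) i E D.hdr (un (m ^ K)) (un (m ^ Dd)) ν false y = true) ∧
  (∃ y : List Bool, y.length ≤ m ^ K ∧
    trV l (Hs j i) i E D.hdr (un (m ^ K)) (un (m ^ Dd)) ν true y = true)

theorem Lr_inst {i m : ℕ} {c V : List (List Bool)} {ν : Node} (hV : V.length = i)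
    (hfit : 2 * sz (D.hdr, c ++ bits ν :: V) + 1 ≤ m) (hν : (own ν).2.2 = D.a m)
    (hok : D.Ok (m ^ K) m) :
    Lr l (Hs j) E Dd K (i + 1) (inst D.hdr (c ++ bits ν :: V) (un m)) ↔
      D.Rej i (inst D.hdr (c ++ bits ν :: V) (un m)) ∨
        (D.TrP i m ν ∧ Lr l (Hs j) E Dd K i (inst D.hdr (c ++ bits ν :: V) (un m))) := by
  have hlen := length_mk hfit
  have hnode := nodeOf_inst D.hdr c V ν (un m)
  rw [hV] at hnode
  have h1 := D.rejS_iff (t := m ^ K) (i := i) (x := inst D.hdr (c ++ bits ν :: V) (un m))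
    (by rw [hlen]; exact hok)
  rw [hlen] at h1
  rw [← h1]
  simp only [Lr, rejT, trT, hnode, Option.elim_some, upow, hlen, hν, TrP]
  rfl

/-- All levels from `i` on are eliminated in the context `c`, on the length `m`. -/
def Good (i m : ℕ) (c : List (List Bool)) : Prop :=
  ∀ V : List (List Bool), V.length = i → 2 * sz (D.hdr, c ++ V) + 1 ≤ m →
    (∀ i', i ≤ i' → ¬ D.Acc i' (inst D.hdr (c ++ V) (un m)) ∧
      ¬ D.Rej i' (inst D.hdr (c ++ V) (un m))) ∧
    (Lr l (Hs j) E Dd K (2 ^ j) (inst D.hdr (c ++ V) (un m)) ↔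
      Lr l (Hs j) E Dd K i (inst D.hdr (c ++ V) (un m)))

theorem good_top (m : ℕ) : D.Good (2 ^ j) m [] :=
  fun _ _ _ => ⟨fun _ hi => D.not_level hi _, Iff.rfl⟩

theorem good_zero {m : ℕ} {c : List (List Bool)} (h : D.Good 0 m c)
    (hfit : 2 * sz (D.hdr, c) + 1 ≤ m) : False := by
  obtain ⟨h1, -⟩ := h [] rfl (by simpa using hfit)
  obtain ⟨i, hi⟩ := D.exists_level (inst D.hdr (c ++ []) (un m))
  obtain ⟨h2, h3⟩ := h1 i (Nat.zero_le _)
  exact hi.elim h2 h3

theorem sig_tree {i m : ℕ} {c : List (List Bool)} {ν : Node} (hg : D.Good (i + 1) m c)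
    (hν : (own ν).2.2 = D.a m) (hok : D.Ok (m ^ K) m) (h : D.Sig i m c (bits ν)) :
    D.TrP i m ν := by
  obtain ⟨V, h1, h2, h3⟩ := h
  obtain ⟨h4, h5⟩ := hg (bits ν :: V) (by simp [h1]) h2
  obtain ⟨h6, h7⟩ := D.top_level h4
  have h8 := h6 h3
  rcases (D.Lr_inst h1 h2 hν hok).1 (h5.1 h8) with h9 | h9
  · exact absurd h8 (h7 h9)
  · exact h9.1

theorem good_step {i m : ℕ} {c : List (List Bool)} {ν : Node} (hg : D.Good (i + 1) m c)
    (hν : (own ν).2.2 = D.a m) (hok : D.Ok (m ^ K) m) (ht : D.TrP i m ν)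
    (h : ¬ D.Sig i m c (bits ν)) : D.Good i m (c ++ [bits ν]) := by
  intro V h1 h2
  rw [List.append_assoc, List.singleton_append] at h2 ⊢
  obtain ⟨h4, h5⟩ := hg (bits ν :: V) (by simp [h1]) h2
  obtain ⟨-, h7⟩ := D.top_level h4
  have h8 := D.Lr_inst h1 h2 hν hok
  have h9 : ¬ D.Rej i (inst D.hdr (c ++ bits ν :: V) (un m)) :=
    fun h9 => h7 h9 (h5.2 (h8.2 (Or.inl h9)))
  constructor
  · intro i' hi'
    rcases Nat.eq_or_lt_of_le hi' with rfl | hi'
    · exact ⟨fun h10 => h ⟨V, h1, h2, h10⟩, h9⟩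
    · exact h4 i' hi'
  · rw [h5, h8]
    exact ⟨fun h10 => (h10.resolve_left h9).2, fun h10 => Or.inr ⟨ht, h10⟩⟩

/-- Numerical conditions on two lengths. -/
structure Pair (lo hi : ℕ) : Prop where
  o11 : D.Ok (lo ^ K) lo
  o12 : D.Ok (lo ^ K) hi
  o21 : D.Ok (hi ^ K) lo
  o22 : D.Ok (hi ^ K) hi
  c12 : hi ≤ lo ^ Dd
  c21 : lo ≤ hi ^ Dd
  c22 : hi ≤ hi ^ Dd
  ws : D.WS lo ≤ lo ^ E

theorem step {i lo hi : ℕ} {c c' : List (List Bool)} (hp : D.Pair lo hi)
    (hg : D.Good (i + 1) lo c) (hg' : D.Good (i + 1) hi c') :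
    D.Good i lo (c ++ [bits ((((lo, c, D.a lo), (hi, c', D.a hi)), none) : Node)]) ∨
      ∃ y : List Bool, y.length ≤ lo ^ E ∧
        D.Good i hi (c' ++ [bits ((((lo, c, D.a lo), (hi, c', D.a hi)), some y) : Node)]) := by
  generalize hτ : (((lo, c, D.a lo), (hi, c', D.a hi)) : Dat × Dat) = τ
  have hτ1 : τ.1 = (lo, c, D.a lo) := by rw [← hτ]
  have hτ2 : τ.2 = (hi, c', D.a hi) := by rw [← hτ]
  have hroot : D.TrP i lo (τ, none) ↔ D.Sig i hi c' (bits ((τ, some []) : Node)) := by
    unfold TrP trV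
    simp only [Option.elim_none, hτ2, and_self]
    exact D.sig_iff hp.o12 hp.c12
  have hint : ∀ y : List Bool, y.length < lo ^ E → (D.TrP i hi (τ, some y) ↔
      D.Sig i hi c' (bits ((τ, some (y ++ [false])) : Node)) ∧
        D.Sig i hi c' (bits ((τ, some (y ++ [true])) : Node))) := by
    intro y hy
    unfold TrP trV
    simp only [Option.elim_some, hτ1, hτ2, hy, if_true]
    rw [D.sig_iff hp.o22 hp.c22, D.sig_iff hp.o22 hp.c22]
  have hleaf : ∀ y : List Bool, ¬ y.length < lo ^ E → (D.TrP i hi (τ, some y) ↔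
      ¬ sigV l (Hs j i) i D.hdr (un (hi ^ K)) (un (hi ^ Dd)) (lo, c, D.a lo)
        (bits ((τ, none) : Node)) y = true) := by
    intro y hy
    unfold TrP trV
    simp only [Option.elim_some, hτ1, hτ2, hy, if_false, Bool.not_eq_true', and_self,
      Bool.not_eq_true]
    exact ⟨fun ⟨_, _, h⟩ => h, fun h => ⟨[], Nat.zero_le _, h⟩⟩
  have hown1 : (own (τ, none)).2.2 = D.a lo := by simp [own, hτ1]
  have hown2 : ∀ y, (own (τ, some y)).2.2 = D.a hi := by intro y; simp [own, hτ2]
  have hnr : ¬ D.Sig i lo c (bits ((τ, none) : Node)) := by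
    intro hs
    obtain ⟨y, hy1, hy2⟩ := D.sigV_complete hp.o21 hp.c21 hp.ws hs
    have key : ∀ d ≤ lo ^ E, D.Sig i hi c' (bits ((τ, some (y.take d)) : Node)) := by
      intro d
      induction d with
      | zero =>
        intro _
        exact hroot.1 (D.sig_tree hg hown1 hp.o11 hs)
      | succ d ih =>
        intro hd
        have h1 := (hint _ (by rw [List.length_take]; omega)).1
          (D.sig_tree hg' (hown2 _) hp.o22 (ih (by omega)))
        rw [List.take_succ_eq_append_getElem (by omega)]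
        cases y[d]'(by omega)
        · exact h1.1
        · exact h1.2
    have h2 := key _ le_rfl
    rw [← hy1, List.take_length] at h2
    exact (hleaf y (by omega)).1 (D.sig_tree hg' (hown2 _) hp.o22 h2) hy2
  by_cases hr : D.TrP i lo (τ, none)
  · exact Or.inl (D.good_step hg hown1 hp.o11 hr hnr)
  · right
    have key : ∀ d, ∀ y : List Bool, y.length + d = lo ^ E →
        ¬ D.Sig i hi c' (bits ((τ, some y) : Node)) → ∃ y' : List Bool, y'.length ≤ lo ^ E ∧
          D.Good i hi (c' ++ [bits ((τ, some y') : Node)]) := by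
      intro d
      induction d with
      | zero =>
        intro y hy hs
        refine ⟨y, by omega, D.good_step hg' (hown2 _) hp.o22 ?_ hs⟩
        exact (hleaf y (by omega)).2 (fun h => hnr (D.sigV_sound hp.o21 hp.c21 h))
      | succ d ih =>
        intro y hy hs
        by_cases ht : D.TrP i hi (τ, some y)
        · exact ⟨y, by omega, D.good_step hg' (hown2 _) hp.o22 ht hs⟩
        · rw [hint y (by omega), not_and_or] at ht
          rcases ht with ht | ht
          · exact ih _ (by simp; omega) ht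
          · exact ih _ (by simp; omega) ht
    exact key (lo ^ E) [] (by simp) (fun h => hr (hroot.2 h))

end Data2

end Pool.Agent.H553Z.Hier
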