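import Pool.Agent.H553Z.Hier.Defs

/-!
# Fixed polynomial time with a constant number of queries and with advice
-/

namespace Pool.Agent.H553Z.Hier

open Pool.Agent.NPC

/-- `L` is decided by a deterministic algorithm with `s n` bits of advice that asks at most `j`
adaptive queries to an oracle `A` in `InNTime k l`; each action is computed in time `O(m ^ k)` by
`f` from the input, the advice and the answers received so far. -/
def ConstQueries (k l j : ℕ) (s : ℕ → ℕ) (L : Set (List Bool)) : Prop :=
  ∃ (f : List Bool → List Bool) (A : Set (List Bool)) (a : ℕ → List Bool),
    InTime k f ∧ InNTime k l A ∧ (∀ n, (a n).length ≤ s n) ∧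
    ∀ x : List Bool, Decides (alg f x (a x.length)) A j (x ∈ L)

end Pool.Agent.H553Z.Hier
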