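import Pool.Agent.H553Z.Hier.Arith
import Pool.Agent.H553Z.BH.Defs
import Pool.Agent.H660R2.NX.Verif

/-!
# The diagonal language for a constant number of queries, and its membership in `NP`
-/

namespace Pool.Agent.H553Z.Hier

open Pool.Agent.NPC Turing Pool.Agent.H660R2.NX

attribute [local irreducible] unpair

/-! ### Closure properties of `NP` -/

/-- Predicates in `NP`, with a typed verifier. -/
def NPf (P : List Bool → Prop) : Prop :=
  ∃ (R : List Bool → List Bool → Bool) (p : Polynomial ℕ),
    Poly (fun z : List Bool × List Bool => R z.1 z.2) ∧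
      ∀ x, P x ↔ ∃ w : List Bool, w.length ≤ p.eval x.length ∧ R x w = true

theorem NPf.inNP {P : List Bool → Prop} (h : NPf P) : InNP {x | P x} := by
  obtain ⟨R, p, hR, h⟩ := h
  have h1 : Poly (fun v : List Bool => R (unpair v).1 (unpair v).2) := hR.comp poly_unpair
  refine ⟨fun v => [R (unpair v).1 (unpair v).2], p, polyTime_of_poly h1, fun x => ?_⟩
  simp only [Set.mem_ofPred_eq, unpair_pairBits, List.cons.injEq, and_true, h]

theorem poly_evalLen {α : Type} [TEnc α] {x : α → List Bool} (hx : Poly x) (p : Polynomial ℕ) :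
    Poly (fun a => p.eval (x a).length) := (UPoly.eval (UPoly.length hx) p).toPoly

theorem NPf.or {P Q : List Bool → Prop} (hP : NPf P) (hQ : NPf Q) : NPf (fun x => P x ∨ Q x) := by
  obtain ⟨R, p, hR, h⟩ := hP
  obtain ⟨R', p', hR', h'⟩ := hQ
  refine ⟨fun x w => (decide (w.length ≤ p.eval x.length) && R x w) ||
    (decide (w.length ≤ p'.eval x.length) && R' x w), p + p', ?_, fun x => ?_⟩
  · exact Poly.or (Poly.and (Poly.decide_le (by fun_prop) (poly_evalLen (by fun_prop) p)) hR)
      (Poly.and (Poly.decide_le (by fun_prop) (poly_evalLen (by fun_prop) p')) hR')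
  · simp only [h, h', Bool.or_eq_true, Bool.and_eq_true, decide_eq_true_eq, Polynomial.eval_add]
    constructor
    · rintro (⟨w, h1, h2⟩ | ⟨w, h1, h2⟩)
      · exact ⟨w, by omega, Or.inl ⟨h1, h2⟩⟩
      · exact ⟨w, by omega, Or.inr ⟨h1, h2⟩⟩
    · rintro ⟨w, -, h1 | h1⟩
      · exact Or.inl ⟨w, h1⟩
      · exact Or.inr ⟨w, h1⟩

theorem NPf.and {P Q : List Bool → Prop} (hP : NPf P) (hQ : NPf Q) : NPf (fun x => P x ∧ Q x) := by
  obtain ⟨R, p, hR, h⟩ := hP
  obtain ⟨R', p', hR', h'⟩ := hQ
  refine ⟨fun x w => (decide ((unpair w).1.length ≤ p.eval x.length) && R x (unpair w).1) &&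
    (decide ((unpair w).2.length ≤ p'.eval x.length) && R' x (unpair w).2), 2 * p + 1 + p', ?_,
    fun x => ?_⟩
  · have h1 : Poly (fun z : List Bool × List Bool => (unpair z.2).1) :=
      Poly.fst (poly_unpair_comp (by fun_prop))
    have h2 : Poly (fun z : List Bool × List Bool => (unpair z.2).2) :=
      Poly.snd (poly_unpair_comp (by fun_prop))
    exact Poly.and (Poly.and (Poly.decide_le (Poly.length h1) (poly_evalLen (by fun_prop) p))
      (hR.comp (f := fun z : List Bool × List Bool => (z.1, (unpair z.2).1))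
        (Poly.pair (by fun_prop) h1)))
      (Poly.and (Poly.decide_le (Poly.length h2) (poly_evalLen (by fun_prop) p'))
      (hR'.comp (f := fun z : List Bool × List Bool => (z.1, (unpair z.2).2))
        (Poly.pair (by fun_prop) h2)))
  · simp only [h, h', Bool.and_eq_true, decide_eq_true_eq, Polynomial.eval_add,
      Polynomial.eval_mul, Polynomial.eval_ofNat, Polynomial.eval_one]
    constructor
    · rintro ⟨⟨w, h1, h2⟩, ⟨w', h1', h2'⟩⟩
      refine ⟨pairBits w w', by rw [length_pairBits]; omega, ?_⟩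
      rw [unpair_pairBits]
      exact ⟨⟨h1, h2⟩, h1', h2'⟩
    · rintro ⟨w, -, h1, h2⟩
      exact ⟨⟨_, h1⟩, ⟨_, h2⟩⟩

theorem NPf.base {R : List Bool → List Bool → Bool} (K : ℕ)
    (hR : Poly (fun z : List Bool × List Bool => R z.1 z.2)) :
    NPf (fun x => ∃ w : List Bool, w.length ≤ x.length ^ K ∧ R x w = true) :=
  ⟨R, Polynomial.X ^ K, hR, fun x => by simp⟩

theorem NPf.true : NPf (fun _ => True) :=
  ⟨fun _ _ => Bool.true, 0, by fun_prop, fun x => by simp⟩

/-! ### The language -/

/-- A length, a context and an advice string. -/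
abbrev Dat : Type := ℕ × List (List Bool) × List Bool

/-- A node of a tree: the data of the root, the data of the other nodes, the position. -/
abbrev Node : Type := (Dat × Dat) × Option (List Bool)

/-- A list of answers with certificates. -/
abbrev Wit : Type := List Bool × List (List Bool)

/-- The simulated action. -/
def actS (κ : Hdr) (t : List Unit) (z h : List Bool) : List Bool := simu κ.1 t (pairBits z h)

/-- The test that the positive answers are certified. -/
def ycV (l : ℕ) (κ : Hdr) (t : List Unit) (z : List Bool) (ω : Wit) : Bool :=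
  (List.range ω.1.length).all (fun p =>
    decide ((actS κ t z (ω.1.take p)).head? = some false) &&
      (!(ω.1.getD p false) || ver l κ t (actS κ t z (ω.1.take p)).tail (ω.2.getD p [])))

/-- An accepting list of answers. -/
def accV (l : ℕ) (H : List (List Bool)) (κ : Hdr) (t : List Unit) (z : List Bool) (ω : Wit) :
    Bool :=
  decide (ω.1 ∈ H) && (ycV l κ t z ω && decide (actS κ t z ω.1 = [true]))

/-- A rejecting list of answers. -/
def rejV (l : ℕ) (H : List (List Bool)) (κ : Hdr) (t : List Unit) (z : List Bool) (ω : Wit) :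
    Bool :=
  decide (ω.1 ∈ H) && (ycV l κ t z ω && (!(decide ((actS κ t z ω.1).head? = some false)) &&
    !(decide (actS κ t z ω.1 = [true]))))

/-- The test of a certificate for the signal of a node. -/
def sigV (l : ℕ) (H : List (List Bool)) (i : ℕ) (κ : Hdr) (t cap : List Unit) (d : Dat)
    (u y : List Bool) : Bool :=
  (unbits (List (List Bool) × Wit) (unpair y).1).elim false (fun ω =>
    decide (ω.1.length = i) && (decide (2 * (bits (κ, d.2.1 ++ u :: ω.1)).length + 1 ≤ d.1) &&
      accV l H κ t (pairBits (inst κ (d.2.1 ++ u :: ω.1) (ucap d.1 cap)) d.2.2) ω.2))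

/-- The test of a certificate of rejection. -/
def rejS (l : ℕ) (H : List (List Bool)) (κ : Hdr) (t : List Unit) (x a y : List Bool) : Bool :=
  (unbits Wit (unpair y).1).elim false (fun ω => rejV l H κ t (pairBits x a) ω)

/-- The data of a node. -/
def own (ν : Node) : Dat := ν.2.elim ν.1.1 (fun _ => ν.1.2)

/-- The test of the condition of a node. -/
def trV (l : ℕ) (H : List (List Bool)) (i E : ℕ) (κ : Hdr) (t cap : List Unit) (ν : Node)
    (b : Bool) (y : List Bool) : Bool :=
  ν.2.elim (sigV l H i κ t cap ν.1.2 (bits ((ν.1, some []) : Node)) y) (fun pos =>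
    if pos.length < ν.1.1.1 ^ E then
      sigV l H i κ t cap ν.1.2 (bits ((ν.1, some (pos ++ [b])) : Node)) y
    else !(sigV l H i κ t cap ν.1.1 (bits ((ν.1, none) : Node)) pos))

/-- The header and the node of level `i` of an instance. -/
def nodeOf (i : ℕ) (x : List Bool) : Option (Hdr × Node) :=
  (unbits (Hdr × List (List Bool)) (unpair x).1).bind (fun c =>
    (unbits Node (c.2.reverse.getD i [])).map (fun ν => (c.1, ν)))

/-- The test of rejection on level `i`. -/
def rejT (l : ℕ) (H : List (List Bool)) (i K : ℕ) (x y : List Bool) : Bool :=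
  (nodeOf i x).elim false (fun c => rejS l H c.1 (upow K x) x (own c.2).2.2 y)

/-- The test of the condition of the node of level `i`. -/
def trT (l : ℕ) (H : List (List Bool)) (i E D K : ℕ) (b : Bool) (x y : List Bool) : Bool :=
  (nodeOf i x).elim false (fun c => trV l H i E c.1 (upow K x) (upow D x) c.2 b y)

/-- The language, level by level. -/
def Lr (l : ℕ) (Hs : ℕ → List (List Bool)) (E D K : ℕ) : ℕ → List Bool → Prop
  | 0, _ => True
  | i + 1, x => (∃ y : List Bool, y.length ≤ x.length ^ K ∧ rejT l (Hs i) i K x y = true) ∨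
      (((∃ y : List Bool, y.length ≤ x.length ^ K ∧ trT l (Hs i) i E D K false x y = true) ∧
        (∃ y : List Bool, y.length ≤ x.length ^ K ∧ trT l (Hs i) i E D K true x y = true)) ∧
        Lr l Hs E D K i x)

section PolyTime

variable {α : Type} [TEnc α]

theorem poly_actS {κ : α → Hdr} {t : α → List Unit} {z h : α → List Bool} (hκ : Poly κ)
    (ht : Poly t) (hz : Poly z) (hh : Poly h) : Poly (fun a => actS (κ a) (t a) (z a) (h a)) :=
  poly_simu (Poly.fst hκ) ht (poly_pairBits hz hh)

theorem poly_ycV (l : ℕ) {κ : α → Hdr} {t : α → List Unit} {z : α → List Bool} {ω : α → Wit}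
    (hκ : Poly κ) (ht : Poly t) (hz : Poly z) (hω : Poly ω) :
    Poly (fun a => ycV l (κ a) (t a) (z a) (ω a)) := by
  unfold ycV
  refine Poly.all (Poly.range_length (Poly.fst hω)) ?_
  have hκ' : Poly (fun p : α × ℕ => κ p.1) := hκ.comp (by fun_prop)
  have ht' : Poly (fun p : α × ℕ => t p.1) := ht.comp (by fun_prop)
  have hz' : Poly (fun p : α × ℕ => z p.1) := hz.comp (by fun_prop)
  have hω' : Poly (fun p : α × ℕ => ω p.1) := hω.comp (by fun_prop)
  have hp : Poly (fun p : α × ℕ => p.2) := by fun_prop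
  have h1 : Poly (fun p : α × ℕ => actS (κ p.1) (t p.1) (z p.1) ((ω p.1).1.take p.2)) :=
    poly_actS hκ' ht' hz' (poly_take (Poly.fst hω') hp)
  exact Poly.and (Poly.dec_eq (Poly.head? h1) (by fun_prop))
    (Poly.or (Poly.not (Poly.getD (Poly.fst hω') hp (by fun_prop)))
      (poly_ver l hκ' ht' (Poly.tail h1) (Poly.getD (Poly.snd hω') hp (by fun_prop))))

theorem poly_accV (l : ℕ) (H : List (List Bool)) {κ : α → Hdr} {t : α → List Unit}
    {z : α → List Bool} {ω : α → Wit} (hκ : Poly κ) (ht : Poly t) (hz : Poly z) (hω : Poly ω) :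
    Poly (fun a => accV l H (κ a) (t a) (z a) (ω a)) := by
  unfold accV
  exact Poly.and (Poly.dec_mem (Poly.fst hω) (by fun_prop)) (Poly.and (poly_ycV l hκ ht hz hω)
    (Poly.dec_eq (poly_actS hκ ht hz (Poly.fst hω)) (by fun_prop)))

theorem poly_rejV (l : ℕ) (H : List (List Bool)) {κ : α → Hdr} {t : α → List Unit}
    {z : α → List Bool} {ω : α → Wit} (hκ : Poly κ) (ht : Poly t) (hz : Poly z) (hω : Poly ω) :
    Poly (fun a => rejV l H (κ a) (t a) (z a) (ω a)) := by
  unfold rejV
  have h1 := poly_actS hκ ht hz (Poly.fst hω)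
  exact Poly.and (Poly.dec_mem (Poly.fst hω) (by fun_prop)) (Poly.and (poly_ycV l hκ ht hz hω)
    (Poly.and (Poly.not (Poly.dec_eq (Poly.head? h1) (by fun_prop)))
      (Poly.not (Poly.dec_eq h1 (by fun_prop)))))

theorem poly_sigV (l : ℕ) (H : List (List Bool)) (i : ℕ) {κ : α → Hdr} {t cap : α → List Unit}
    {d : α → Dat} {u y : α → List Bool} (hκ : Poly κ) (ht : Poly t) (hcap : Poly cap)
    (hd : Poly d) (hu : Poly u) (hy : Poly y) :
    Poly (fun a => sigV l H i (κ a) (t a) (cap a) (d a) (u a) (y a)) := by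
  unfold sigV
  have h0 : Poly (unbits (List (List Bool) × Wit)) := poly_unbits
  refine Poly.optElim (h0.comp (Poly.fst (poly_unpair_comp hy))) (by fun_prop) ?_
  have hκ' : Poly (fun p : α × List (List Bool) × Wit => κ p.1) := hκ.comp (by fun_prop)
  have ht' : Poly (fun p : α × List (List Bool) × Wit => t p.1) := ht.comp (by fun_prop)
  have hcap' : Poly (fun p : α × List (List Bool) × Wit => cap p.1) := hcap.comp (by fun_prop)
  have hd' : Poly (fun p : α × List (List Bool) × Wit => d p.1) := hd.comp (by fun_prop)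
  have hu' : Poly (fun p : α × List (List Bool) × Wit => u p.1) := hu.comp (by fun_prop)
  have hG : Poly (fun p : α × List (List Bool) × Wit => (d p.1).2.1 ++ u p.1 :: p.2.1) :=
    Poly.append (Poly.fst (Poly.snd hd')) (Poly.cons hu' (by fun_prop))
  refine Poly.and (Poly.dec_eq (by fun_prop) (by fun_prop)) (Poly.and ?_ ?_)
  · exact Poly.decide_le (Poly.add (Poly.mul (by fun_prop)
      (Poly.length (poly_bits' (Poly.pair hκ' hG)))) (by fun_prop)) (Poly.fst hd')
  · exact poly_accV l H hκ' ht' (poly_pairBits (poly_mk hκ' hG (poly_ucap (Poly.fst hd') hcap'))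
      (Poly.snd (Poly.snd hd'))) (by fun_prop)

theorem poly_rejS (l : ℕ) (H : List (List Bool)) {κ : α → Hdr} {t : α → List Unit}
    {x a y : α → List Bool} (hκ : Poly κ) (ht : Poly t) (hx : Poly x) (ha : Poly a)
    (hy : Poly y) : Poly (fun c => rejS l H (κ c) (t c) (x c) (a c) (y c)) := by
  unfold rejS
  have h0 : Poly (unbits Wit) := poly_unbits
  refine Poly.optElim (h0.comp (Poly.fst (poly_unpair_comp hy))) (by fun_prop) ?_
  exact poly_rejV l H (hκ.comp (by fun_prop)) (ht.comp (by fun_prop))
    (poly_pairBits (hx.comp (by fun_prop)) (ha.comp (by fun_prop))) (by fun_prop)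

theorem poly_own {ν : α → Node} (hν : Poly ν) : Poly (fun a => own (ν a)) := by
  unfold own
  exact Poly.optElim (Poly.snd hν) (Poly.fst (Poly.fst hν))
    (Poly.snd (Poly.fst (hν.comp (by fun_prop))))

theorem poly_trV (l : ℕ) (H : List (List Bool)) (i E : ℕ) (b : Bool) {κ : α → Hdr}
    {t cap : α → List Unit} {ν : α → Node} {y : α → List Bool} (hκ : Poly κ) (ht : Poly t)
    (hcap : Poly cap) (hν : Poly ν) (hy : Poly y) :
    Poly (fun a => trV l H i E (κ a) (t a) (cap a) (ν a) b (y a)) := by
  unfold trV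
  refine Poly.optElim (Poly.snd hν) (poly_sigV l H i hκ ht hcap (Poly.snd (Poly.fst hν))
    (poly_bits' (Poly.pair (Poly.fst hν) (by fun_prop))) hy) ?_
  have hκ' : Poly (fun p : α × List Bool => κ p.1) := hκ.comp (by fun_prop)
  have ht' : Poly (fun p : α × List Bool => t p.1) := ht.comp (by fun_prop)
  have hcap' : Poly (fun p : α × List Bool => cap p.1) := hcap.comp (by fun_prop)
  have hν' : Poly (fun p : α × List Bool => ν p.1) := hν.comp (by fun_prop)
  have hy' : Poly (fun p : α × List Bool => y p.1) := hy.comp (by fun_prop)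
  refine Poly.ite (Poly.decide_lt (by fun_prop) (poly_pow (Poly.fst (Poly.fst (Poly.fst hν'))) E))
    ?_ (Poly.not ?_)
  · exact poly_sigV l H i hκ' ht' hcap' (Poly.snd (Poly.fst hν'))
      (poly_bits' (Poly.pair (Poly.fst hν') (by fun_prop))) hy'
  · exact poly_sigV l H i hκ' ht' hcap' (Poly.fst (Poly.fst hν'))
      (poly_bits' (Poly.pair (Poly.fst hν') (by fun_prop))) (by fun_prop)

theorem poly_nodeOf (i : ℕ) {x : α → List Bool} (hx : Poly x) :
    Poly (fun a => nodeOf i (x a)) := by
  unfold nodeOf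
  have h0 : Poly (unbits (Hdr × List (List Bool))) := poly_unbits
  have h1 : Poly (unbits Node) := poly_unbits
  refine Poly.optBind (h0.comp (Poly.fst (poly_unpair_comp hx))) ?_
  exact Poly.optMap (h1.comp (by fun_prop)) (by fun_prop)

theorem poly_rejT (l : ℕ) (H : List (List Bool)) (i K : ℕ) :
    Poly (fun z : List Bool × List Bool => rejT l H i K z.1 z.2) := by
  unfold rejT
  refine Poly.optElim (poly_nodeOf i (by fun_prop)) (by fun_prop) ?_
  exact poly_rejS l H (by fun_prop) (poly_upow K (by fun_prop)) (by fun_prop)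
    (Poly.snd (Poly.snd (poly_own (by fun_prop)))) (by fun_prop)

theorem poly_trT (l : ℕ) (H : List (List Bool)) (i E D K : ℕ) (b : Bool) :
    Poly (fun z : List Bool × List Bool => trT l H i E D K b z.1 z.2) := by
  unfold trT
  refine Poly.optElim (poly_nodeOf i (by fun_prop)) (by fun_prop) ?_
  exact poly_trV l H i E b (by fun_prop) (poly_upow K (by fun_prop)) (poly_upow D (by fun_prop))
    (by fun_prop) (by fun_prop)

end PolyTime

theorem npf_Lr (l : ℕ) (Hs : ℕ → List (List Bool)) (E D K : ℕ) : ∀ i, NPf (Lr l Hs E D K i)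
  | 0 => NPf.true
  | i + 1 => (NPf.base K (poly_rejT l (Hs i) i K)).or
      (((NPf.base K (poly_trT l (Hs i) i E D K false)).and
        (NPf.base K (poly_trT l (Hs i) i E D K true))).and (npf_Lr l Hs E D K i))

end Pool.Agent.H553Z.Hier
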